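import Pool.Agent.W240.CD.CntMain
import Pool.Agent.W4.QD.Stms2

/-!
# Project QD, part CNTQ: truncated counting function of the zeros of a form of degree `q`
-/

set_option autoImplicit false

namespace Pool.Agent.W462.QD

open NumberField IsDedekindDomain Finset Polynomial
open Pool.Agent.W4.CF Pool.Agent.W4.VC Pool.Agent.W4.QD Pool.Agent.H691R3 Pool.Agent.W240.CD

section fac

variable {K : Type} [Field K]

/-- the form of degree `q` attached to a polynomial -/
noncomputable def hK (p : K[X]) (q : ℕ) (x y : K) : K :=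
  ∑ j ∈ range (q + 1), p.coeff j * x ^ j * y ^ (q - j)

lemma hK_ne (p : K[X]) (q : ℕ) (hp : p.natDegree ≤ q) (x y : K) (hy : y ≠ 0) :
    hK p q x y = y ^ q * p.eval (x / y) := by
  rw [Polynomial.eval_eq_sum_range' (Nat.lt_succ_of_le hp), Finset.mul_sum]
  refine Finset.sum_congr rfl fun j hj => ?_
  have hj' : j ≤ q := Nat.lt_succ_iff.1 (Finset.mem_range.1 hj)
  have h1 : y ^ q = y ^ j * y ^ (q - j) := by rw [← pow_add, Nat.add_sub_cancel' hj']
  rw [h1, div_pow]
  field_simp

lemma hK_zero (p : K[X]) (q : ℕ) (x : K) : hK p q x 0 = p.coeff q * x ^ q := by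
  unfold hK
  rw [Finset.sum_eq_single q]
  · rw [Nat.sub_self, pow_zero, mul_one]
  · intro j hj hne
    have hj' : j < q := by
      have := Finset.mem_range.1 hj
      omega
    rw [zero_pow (by omega), mul_zero]
  · intro h
    exact absurd (Finset.mem_range.2 (Nat.lt_succ_self q)) h

lemma hK_sub (p g : K[X]) (κ : K) (q : ℕ) (x y : K) :
    hK (p - C κ * g) q x y = hK p q x y - κ * hK g q x y := by
  unfold hK
  rw [Finset.mul_sum, ← Finset.sum_sub_distrib]
  refine Finset.sum_congr rfl fun j _ => ?_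
  rw [coeff_sub, coeff_C_mul]
  ring

/-- the product of the linear factors -/
noncomputable def gP {q : ℕ} (α : Fin q → K × K) : K[X] := ∏ i, (C (α i).2 * X - C (α i).1)

lemma deg1 (a b : K) : (C a * X - C b : K[X]).natDegree ≤ 1 := by
  refine (natDegree_sub_le _ _).trans ?_
  rw [natDegree_C]
  exact max_le ((natDegree_C_mul_le _ _).trans natDegree_X_le) (Nat.zero_le _)

lemma gP_deg {q : ℕ} (α : Fin q → K × K) : (gP α).natDegree ≤ q := by
  unfold gP
  refine (natDegree_prod_le _ _).trans ?_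
  refine (Finset.sum_le_sum fun i _ => deg1 (α i).2 (α i).1).trans ?_
  simp

lemma gP_hK {q : ℕ} (α : Fin q → K × K) (x y : K) :
    hK (gP α) q x y = ∏ i, (x * (α i).2 - y * (α i).1) := by
  by_cases hy : y = 0
  · subst hy
    rw [hK_zero]
    have h1 := coeff_prod_of_natDegree_le (s := univ)
      (fun i : Fin q => (C (α i).2 * X - C (α i).1 : K[X])) 1 (fun i _ => deg1 _ _)
    rw [mul_one, card_univ, Fintype.card_fin] at h1
    have h2 : (gP α).coeff q = ∏ i, (α i).2 := by
      unfold gP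
      rw [h1]
      refine Finset.prod_congr rfl fun i _ => ?_
      simp
    rw [h2]
    have h3 : ∏ i : Fin q, (x * (α i).2 - 0 * (α i).1) = ∏ i : Fin q, (x * (α i).2) :=
      Finset.prod_congr rfl fun i _ => by ring
    rw [h3, Finset.prod_mul_distrib, Finset.prod_const, card_univ, Fintype.card_fin, mul_comm]
  · rw [hK_ne _ _ (gP_deg α) _ _ hy]
    unfold gP
    rw [eval_prod]
    have h4 : y ^ q = ∏ _i : Fin q, y := by
      rw [Finset.prod_const, card_univ, Fintype.card_fin]
    rw [h4, ← Finset.prod_mul_distrib]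
    refine Finset.prod_congr rfl fun i _ => ?_
    rw [eval_sub, eval_mul, eval_C, eval_C, eval_X]
    field_simp

lemma fac [Infinite K] {q : ℕ} (α : Fin q → K × K) (hα0 : ∀ i, α i ≠ 0)
    (hα : ∀ i j, i ≠ j → (α i).1 * (α j).2 - (α i).2 * (α j).1 ≠ 0) (p : K[X]) (hp0 : p ≠ 0)
    (hp : p.natDegree ≤ q) (h : ∀ i, hK p q (α i).1 (α i).2 = 0) :
    ∃ κ : K, κ ≠ 0 ∧ ∀ x y, hK p q x y = κ * ∏ i, (x * (α i).2 - y * (α i).1) := by
  classical
  have hg0 : gP α ≠ 0 := by
    unfold gP
    rw [Finset.prod_ne_zero_iff]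
    intro i _ hi
    apply hα0 i
    have e1 := congrArg (fun r : K[X] => r.coeff 0) hi
    have e2 := congrArg (fun r : K[X] => r.coeff 1) hi
    simp at e1 e2
    exact Prod.ext e1 e2
  obtain ⟨x0, hx0⟩ : ∃ x0, (gP α).eval x0 ≠ 0 := by
    by_contra hc
    push Not at hc
    exact hg0 (Polynomial.funext fun x => by rw [hc x, eval_zero])
  set κ : K := p.eval x0 / (gP α).eval x0 with hκ
  set H : K[X] := p - C κ * gP α with hH
  have hHx : H.eval x0 = 0 := by
    rw [hH, eval_sub, eval_mul, eval_C, hκ, div_mul_cancel₀ _ hx0, sub_self]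
  have hHd : H.natDegree ≤ q := by
    refine (natDegree_sub_le _ _).trans (max_le hp ?_)
    exact (natDegree_C_mul_le _ _).trans (gP_deg α)
  have hHα : ∀ i, hK H q (α i).1 (α i).2 = 0 := by
    intro i
    rw [hH, hK_sub, h i, gP_hK, Finset.prod_eq_zero (mem_univ i) (by ring)]
    ring
  have hH0 : H = 0 := by
    by_contra hne
    set S : Finset (Fin q) := univ.filter fun i => (α i).2 ≠ 0 with hS
    have hroot : ∀ i ∈ S, H.eval ((α i).1 / (α i).2) = 0 := by
      intro i hi
      have hi2 : (α i).2 ≠ 0 := (Finset.mem_filter.1 hi).2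
      have h1 := hHα i
      rw [hK_ne _ _ hHd _ _ hi2] at h1
      exact (mul_eq_zero.1 h1).resolve_left (pow_ne_zero _ hi2)
    have hinj : Set.InjOn (fun i => (α i).1 / (α i).2) S := by
      intro i hi j hj hij
      have hi2 : (α i).2 ≠ 0 := (Finset.mem_filter.1 hi).2
      have hj2 : (α j).2 ≠ 0 := (Finset.mem_filter.1 hj).2
      by_contra hne'
      apply hα i j hne'
      simp only at hij
      rw [div_eq_div_iff hi2 hj2] at hij
      rw [hij]
      ring
    have hx0S : x0 ∉ S.image (fun i => (α i).1 / (α i).2) := by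
      intro hx
      obtain ⟨i, hi, rfl⟩ := Finset.mem_image.1 hx
      have hi2 : (α i).2 ≠ 0 := (Finset.mem_filter.1 hi).2
      apply hx0
      unfold gP
      rw [eval_prod, Finset.prod_eq_zero (mem_univ i)]
      rw [eval_sub, eval_mul, eval_C, eval_C, eval_X]
      field_simp
      ring
    have hcard : S.card + 1 ≤ H.natDegree := by
      have h2 : (insert x0 (S.image (fun i => (α i).1 / (α i).2))).card = S.card + 1 := by
        rw [Finset.card_insert_of_notMem hx0S, Finset.card_image_of_injOn hinj]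
      rw [← h2]
      refine le_trans (Finset.card_le_card ?_) ((Multiset.toFinset_card_le _).trans
        (card_roots' H))
      intro x hx
      rw [Multiset.mem_toFinset, mem_roots hne, IsRoot.def]
      rcases Finset.mem_insert.1 hx with rfl | hx
      · exact hHx
      · obtain ⟨i, hi, rfl⟩ := Finset.mem_image.1 hx
        exact hroot i hi
    by_cases hall : ∀ i, (α i).2 ≠ 0
    · have h3 : S = univ := Finset.filter_true_of_mem fun i _ => hall i
      rw [h3, card_univ, Fintype.card_fin] at hcard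
      omega
    · push Not at hall
      obtain ⟨i0, hi0⟩ := hall
      have h3 : univ.erase i0 ⊆ S := by
        intro i hi
        refine Finset.mem_filter.2 ⟨mem_univ _, fun h0 => ?_⟩
        apply hα i i0 (Finset.ne_of_mem_erase hi)
        rw [h0, hi0]
        ring
      have h4 := Finset.card_le_card h3
      rw [Finset.card_erase_of_mem (mem_univ _), card_univ, Fintype.card_fin] at h4
      have h5 : H.coeff q = 0 := by
        have h6 := hHα i0
        rw [hi0, hK_zero] at h6
        have h7 : (α i0).1 ≠ 0 := fun h0 => hα0 i0 (Prod.ext h0 hi0)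
        exact (mul_eq_zero.1 h6).resolve_right (pow_ne_zero _ h7)
      have h8 : H.natDegree ≠ q := by
        intro h9
        apply hne
        rw [← leadingCoeff_eq_zero, leadingCoeff, h9]
        exact h5
      have h10 : 0 < q := lt_of_le_of_lt (Nat.zero_le _) i0.2
      omega
  have hpe : p = C κ * gP α := sub_eq_zero.1 hH0
  refine ⟨κ, ?_, fun x y => ?_⟩
  · intro h0
    apply hp0
    rw [hpe, h0, C_0, zero_mul]
  · rw [← gP_hK, hpe]
    unfold hK
    rw [Finset.mul_sum]
    refine Finset.sum_congr rfl fun j _ => ?_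
    rw [coeff_C_mul]
    ring

end fac

variable {K : Type} [Field K] [NumberField K] {q : ℕ}

/-- the local term -/
noncomputable def gt (α : Fin q → K × K) (z : K) (w : HeightOneSpectrum (𝓞 K)) : ℝ :=
  ∑ l : Fin q, min (lamA (fv w) (z, 1) (α l) / (Module.finrank ℚ K : ℝ))
    (Real.log (Nv w) / (Module.finrank ℚ K : ℝ))

theorem count_eq (T : Set (HeightOneSpectrum (𝓞 K))) (α : Fin q → K × K) (z : K) :
    countingK T α z = ∑ᶠ w, Set.indicator Tᶜ (gt α z) w := by
  rw [← finsum_mem_def]
  rfl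

section

variable {α : Fin q → K × K} {z : K}

theorem gt_nonneg (hα0 : ∀ i, α i ≠ 0) (hz : ∀ l, z * (α l).2 - 1 * (α l).1 ≠ 0)
    (w : HeightOneSpectrum (𝓞 K)) : 0 ≤ gt α z w :=
  Finset.sum_nonneg fun l _ => le_min
    (div_nonneg (lamF_nonneg w (pz_ne z) (hα0 l) (hz l)) n_pos.le)
    (div_nonneg (log_Nv_pos w).le n_pos.le)

theorem gt_fin (hα0 : ∀ i, α i ≠ 0) (hz : ∀ l, z * (α l).2 - 1 * (α l).1 ≠ 0) :
    (Function.support (gt α z)).Finite := by
  refine (Set.finite_iUnion fun l : Fin q =>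
    lamF_support_finite (pz_ne z) (hα0 l) (hz l)).subset ?_
  intro w hw
  rw [Set.mem_iUnion]
  by_contra hc
  push Not at hc
  apply hw
  unfold gt
  refine Finset.sum_eq_zero fun l _ => ?_
  have h1 : lamA (fv w) (z, 1) (α l) = 0 := by
    by_contra h
    exact hc l h
  rw [h1, zero_div]
  exact min_eq_left (div_nonneg (log_Nv_pos w).le n_pos.le)

theorem gt_ge (hα0 : ∀ i, α i ≠ 0) (hz : ∀ l, z * (α l).2 - 1 * (α l).1 ≠ 0)
    (w : HeightOneSpectrum (𝓞 K)) (l : Fin q) (hl : lamA (fv w) (z, 1) (α l) ≠ 0) :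
    Real.log (Nv w) / (Module.finrank ℚ K : ℝ) ≤ gt α z w := by
  obtain ⟨m, hm⟩ := lamF_discrete w (pz_ne z) (hα0 l) (hz l)
  have hm1 : (1 : ℝ) ≤ m := by
    rcases Nat.eq_zero_or_pos m with h | h
    · rw [h, Nat.cast_zero, zero_mul] at hm
      exact absurd hm hl
    · exact_mod_cast h
  have h1 : Real.log (Nv w) ≤ lamA (fv w) (z, 1) (α l) := by
    rw [hm]
    nlinarith [log_Nv_pos w]
  have h2 : min (lamA (fv w) (z, 1) (α l) / (Module.finrank ℚ K : ℝ))
      (Real.log (Nv w) / (Module.finrank ℚ K : ℝ)) =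
      Real.log (Nv w) / (Module.finrank ℚ K : ℝ) :=
    min_eq_right (div_le_div_of_nonneg_right h1 n_pos.le)
  rw [← h2]
  exact Finset.single_le_sum (f := fun l => min (lamA (fv w) (z, 1) (α l) /
      (Module.finrank ℚ K : ℝ)) (Real.log (Nv w) / (Module.finrank ℚ K : ℝ)))
    (fun i _ => le_min (div_nonneg (lamF_nonneg w (pz_ne z) (hα0 i) (hz i)) n_pos.le)
      (div_nonneg (log_Nv_pos w).le n_pos.le)) (Finset.mem_univ l)

end

/-- if all local heights vanish then the value of the form is a unit -/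
theorem unit_of (w : HeightOneSpectrum (𝓞 K)) (α : Fin q → K × K) (κ : K) (u v : ℤ)
    (huv : IsCoprime u v) (hv : (v : K) ≠ 0) (hα0 : ∀ i, α i ≠ 0)
    (hz : ∀ l, (u : K) / v * (α l).2 - 1 * (α l).1 ≠ 0)
    (h1 : fv w κ = 1) (h2 : ∀ l, max (fv w (α l).1) (fv w (α l).2) = 1)
    (h3 : ∀ l, lamA (fv w) ((u : K) / v, 1) (α l) = 0) :
    fv w (κ * ∏ i, ((u : K) * (α i).2 - v * (α i).1)) = 1 := by
  have hvp : 0 < fv w (v : K) := (fv w).pos hv
  have hM : fv w (v : K) * max (fv w ((u : K) / v)) (fv w 1) = 1 := by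
    rw [← max_mul_max (fv w) (p := ((u : K) / v, 1)) (v : K)]
    simp only [mul_one]
    rw [mul_div_cancel₀ _ hv]
    exact max_one w u v huv
  have h4 : ∀ l, fv w ((u : K) * (α l).2 - v * (α l).1) = 1 := by
    intro l
    have h5 := lamA_eq (fv w) (pz_ne ((u : K) / v)) (hα0 l) (hz l)
    rw [h3 l, h2 l, Real.log_one, add_zero] at h5
    have h6 : Real.log (fv w ((u : K) / v * (α l).2 - 1 * (α l).1)) =
        Real.log (max (fv w ((u : K) / v)) (fv w 1)) := by
      simp only at h5
      linarith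
    have h7 := Real.log_injOn_pos (Set.mem_Ioi.2 ((fv w).pos (hz l)))
      (Set.mem_Ioi.2 (max_pos (fv w) (pz_ne ((u : K) / v)))) h6
    have h8 : (u : K) * (α l).2 - v * (α l).1 = v * ((u : K) / v * (α l).2 - 1 * (α l).1) := by
      field_simp
    rw [h8, map_mul, h7]
    exact hM
  rw [map_mul, map_prod, h1, Finset.prod_congr rfl fun l _ => h4 l, Finset.prod_const_one, mul_one]

theorem t_CNTQ : S_CNTQ := by
  intro K _ _ T hT q α hα0 hα f hf0 hfq h
  classical
  set p : K[X] := f.map (Int.castRingHom K) with hpdef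
  have hinjc : Function.Injective (Int.castRingHom K) := Int.cast_injective
  have hpc : ∀ j, p.coeff j = ((f.coeff j : ℤ) : K) := fun j => by
    rw [hpdef, coeff_map]
    rfl
  have hp0 : p ≠ 0 := (Polynomial.map_ne_zero_iff hinjc).2 hf0
  have hpq : p.natDegree ≤ q := natDegree_map_le.trans hfq
  obtain ⟨κ, hκ, hF⟩ := fac α hα0 hα p hp0 hpq (fun i => by
    unfold hK
    simp only [hpc]
    exact h i)
  have hfin : (((T ∪ {w : HeightOneSpectrum (𝓞 K) | w.asIdeal ∣ differentIdeal ℤ (𝓞 K)}) ∪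
      {w | fv w κ ≠ 1}) ∪ ⋃ l : Fin q, {w | max (fv w (α l).1) (fv w (α l).2) ≠ 1}).Finite := by
    refine ((hT.union (Ideal.finite_factors ?_)).union (fv_support_finite hκ)).union
      (Set.finite_iUnion fun l => max_support_finite (hα0 l))
    exact differentIdeal_ne_bot
  set W := hfin.toFinset with hW
  have hWn : ∀ w, w ∉ W → w ∉ T ∧ ¬ w.asIdeal ∣ differentIdeal ℤ (𝓞 K) ∧ fv w κ = 1 ∧
      ∀ l : Fin q, max (fv w (α l).1) (fv w (α l).2) = 1 := by
    intro w hw
    rw [hW, Set.Finite.mem_toFinset] at hw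
    simp only [Set.mem_union, Set.mem_ofPred_eq, Set.mem_iUnion, not_or, not_exists, not_not] at hw
    exact ⟨hw.1.1.1, hw.1.1.2, hw.1.2, hw.2⟩
  refine ⟨∏ w ∈ W, Ideal.absNorm w.asIdeal, ?_, fun u v huv hv hFuv => ?_⟩
  · refine Nat.one_le_iff_ne_zero.2 (Finset.prod_ne_zero_iff.2 fun w _ => ?_)
    have := NumberField.HeightOneSpectrum.one_lt_absNorm w
    omega
  · have hvK : (v : K) ≠ 0 := by exact_mod_cast hv
    have hFK : ((hom f q u v : ℤ) : K) = κ * ∏ i, ((u : K) * (α i).2 - v * (α i).1) := by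
      rw [← hF]
      unfold hom hK
      push_cast
      simp only [hpc]
    have hFK0 : ((hom f q u v : ℤ) : K) ≠ 0 := by exact_mod_cast hFuv
    have hL : ∀ l : Fin q, (u : K) * (α l).2 - v * (α l).1 ≠ 0 := by
      intro l hl
      apply hFK0
      rw [hFK, Finset.prod_eq_zero (mem_univ l) hl, mul_zero]
    have hz : ∀ l : Fin q, (u : K) / v * (α l).2 - 1 * (α l).1 ≠ 0 := by
      intro l hl
      apply hL l
      have h8 : (u : K) * (α l).2 - v * (α l).1 =
          v * ((u : K) / v * (α l).2 - 1 * (α l).1) := by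
        field_simp
      rw [h8, hl, mul_zero]
    set P := (hom f q u v).natAbs.primeFactors.filter
      (fun p => ¬ p ∣ ∏ w ∈ W, Ideal.absNorm w.asIdeal) with hP
    have hPp : ∀ p ∈ P, p.Prime ∧ (p : ℤ) ∣ hom f q u v ∧
        ¬ p ∣ ∏ w ∈ W, Ideal.absNorm w.asIdeal := by
      intro p hp
      rw [hP, Finset.mem_filter, Nat.mem_primeFactors] at hp
      exact ⟨hp.1.1, Int.natCast_dvd.2 hp.1.2.1, hp.2⟩
    have hS : ∀ p ∈ P, ∀ w, w ∈ Sq K p ↔ fv w (p : K) < 1 := by
      intro p hp w
      have hp0 : (p : K) ≠ 0 := by exact_mod_cast (hPp p hp).1.ne_zero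
      rw [Sq_eq p hp0, mem_Sp]
    have hSW : ∀ p ∈ P, ∀ w ∈ Sq K p, w ∉ W := by
      intro p hp w hw hwW
      apply (hPp p hp).2.2
      exact (dvd_norm w p (hPp p hp).1 ((hS p hp w).1 hw)).trans
        (Finset.dvd_prod_of_mem (fun w : HeightOneSpectrum (𝓞 K) => Ideal.absNorm w.asIdeal) hwW)
    have hge : ∀ p ∈ P, ∀ w ∈ Sq K p, Real.log (Nv w) / (Module.finrank ℚ K : ℝ) ≤
        gt α ((u : K) / v) w := by
      intro p hp w hw
      obtain ⟨_, _, h3, h4⟩ := hWn w (hSW p hp w hw)
      by_cases hc : ∃ l, lamA (fv w) ((u : K) / v, 1) (α l) ≠ 0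
      · obtain ⟨l, hl⟩ := hc
        exact gt_ge hα0 hz w l hl
      · push Not at hc
        exfalso
        have h5 := unit_of w α κ u v huv hvK hα0 hz h3 h4 hc
        rw [← hFK] at h5
        obtain ⟨k, hk⟩ := (hPp p hp).2.1
        rw [hk] at h5
        push_cast at h5
        rw [map_mul] at h5
        have h6 := (hS p hp w).1 hw
        have h7 := fv_int w k
        nlinarith [(fv w).nonneg (p : K), (fv w).nonneg (k : K)]
    have hn := n_pos (K := K)
    calc ∑ p ∈ P, Real.log (p : ℝ)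
        ≤ ∑ p ∈ P, ∑ w ∈ Sq K p, Real.log (Nv w) / (Module.finrank ℚ K : ℝ) := by
          refine Finset.sum_le_sum fun p hp => ?_
          have hp0 : (p : K) ≠ 0 := by exact_mod_cast (hPp p hp).1.ne_zero
          rw [← Finset.sum_div, le_div_iff₀ hn, mul_comm, Sq_eq p hp0]
          refine sum_Sp p (hPp p hp).1 hp0 fun w hw => ?_
          rw [← Sq_eq p hp0] at hw
          exact (hWn w (hSW p hp w hw)).2.1
      _ ≤ ∑ p ∈ P, ∑ w ∈ Sq K p, gt α ((u : K) / v) w :=
          Finset.sum_le_sum fun p hp => Finset.sum_le_sum fun w hw => hge p hp w hw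
      _ = ∑ w ∈ P.biUnion (Sq K), gt α ((u : K) / v) w := by
          rw [Finset.sum_biUnion]
          intro p hp q hq hpq
          refine Finset.disjoint_left.2 fun w hw hw' => hpq ?_
          exact uniq w p q (hPp p hp).1 (hPp q hq).1 ((hS p hp w).1 hw) ((hS q hq w).1 hw')
      _ = ∑ w ∈ P.biUnion (Sq K), Set.indicator Tᶜ (gt α ((u : K) / v)) w := by
          refine Finset.sum_congr rfl fun w hw => ?_
          obtain ⟨p, hp, hw'⟩ := Finset.mem_biUnion.1 hw
          rw [Set.indicator_of_mem]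
          exact (hWn w (hSW p hp w hw')).1
      _ ≤ ∑ w ∈ P.biUnion (Sq K) ∪ (gt_fin hα0 hz).toFinset,
            Set.indicator Tᶜ (gt α ((u : K) / v)) w :=
          Finset.sum_le_sum_of_subset_of_nonneg Finset.subset_union_left fun w _ _ =>
            Set.indicator_nonneg (fun w _ => gt_nonneg hα0 hz w) w
      _ = countingK T α ((u : K) / (v : K)) := by
          rw [count_eq, finsum_eq_sum_of_support_subset]
          intro w hw
          rw [Finset.coe_union, Set.Finite.coe_toFinset]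
          right
          intro h'
          apply hw
          by_cases hwT : w ∈ Tᶜ
          · rw [Set.indicator_of_mem hwT, h']
          · rw [Set.indicator_of_notMem hwT]

end Pool.Agent.W462.QD
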